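import Pool.Agent.REL34.Basic
import Pool.Agent.HAS82.Main

/-!
# Theorem Z+ (note 3284 of helper13), the end

`Hs`, `A` are subspaces, `t0` an element outside `A`; the elements `t` of the coset `t0 + A`
annihilate only elements of `Hs`, and any two elements of `Hs` are annihilated by one such `t`.
Then some element of the coset annihilates `Hs`.
-/

set_option autoImplicit false
set_option linter.unusedSectionVars false

namespace Pool.Agent.ZP13

open Pool.Agent.Helper58.PLine (QData zm zm_ne_zero exists_functional)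
open Pool.Agent.HAS82 (ind ind_and natCard_eq card_mul card_mono sg sg_add sg_zero T T_pos T_zero
  T_nonneg conv_ineq)
open Pool.Agent.REL34 (ss xxy xyy rc r0 lc l0 ladd q0 zq shiftG ind_mul_sum ind_le cm_le cm_iff)
open scoped Classical
open Finset

variable {V Q : Type} [AddCommGroup V] [Module (ZMod 2) V] {S : QData V Q}

/-- common slots -/
theorem cs {t s v w : V} (h : S.q t v = S.q s w) :
    ∃ x, S.q t x = S.q t v ∧ S.q s x = S.q t v := by
  obtain ⟨x, h1, h2⟩ := S.link t v s w h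
  exact ⟨x, h1.symm, by rw [← h2, ← h]⟩

/-- common values of two elements add up -/
theorem val_add' {v u p p' x x' : V} (h : S.q v p = S.q u x) (h' : S.q v p' = S.q u x') :
    S.q v (p + p') = S.q u (x + x') := by
  obtain ⟨y, h1, h2⟩ := cs h
  obtain ⟨y', h3, h4⟩ := cs h'
  have e1 : S.q v (p + p') = S.q v (y + y') := by
    rw [S.add, show p + p' + (y + y') = (p + y) + (p' + y') by abel]
    exact r0 (rc rfl h1) (rc rfl h3)
  have e2 : S.q u (x + x') = S.q u (y + y') := by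
    rw [S.add, show x + x' + (y + y') = (x + y) + (x' + y') by abel]
    exact r0 (rc rfl (h2.trans h)) (rc rfl (h4.trans h'))
  have e3 : S.q v (y + y') = S.q u (y + y') := by
    rw [ladd]
    exact r0 ((ladd _ _ _).1 (h1.trans h2.symm)) ((ladd _ _ _).1 (h3.trans h4.symm))
  rw [e1, e2, e3]

/-- the elements of `Hs` annihilated by `p` -/
def KH (S : QData V Q) (Hs : Submodule (ZMod 2) V) (p : V) : Submodule (ZMod 2) V := Hs ⊓ S.ann p

theorem mem_KH {Hs : Submodule (ZMod 2) V} {p v : V} :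
    v ∈ KH S Hs p ↔ v ∈ Hs ∧ S.q p v = S.z := Iff.rfl

/-- the value at `v` of `p` is a value of `u` on `Hs` -/
def EV (S : QData V Q) (Hs : Submodule (ZMod 2) V) (p u v : V) : Prop :=
  v ∈ Hs ∧ ∃ x ∈ Hs, S.q v p = S.q u x

/-- `p` and `u` are linked via `Hs` -/
def LK (S : QData V Q) (Hs : Submodule (ZMod 2) V) (p u : V) : Prop :=
  ∀ v, EV S Hs p u v → v ∈ KH S Hs p ⊔ KH S Hs (p + u)

theorem sup_EV {Hs : Submodule (ZMod 2) V} (p u : V) :
    ∀ v ∈ KH S Hs p ⊔ KH S Hs (p + u), EV S Hs p u v := by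
  intro v hv
  obtain ⟨x, hx, y, hy, rfl⟩ := Submodule.mem_sup.1 hv
  refine ⟨Hs.add_mem hx.1 hy.1, y, hy.1, ?_⟩
  have h1 : S.q p y = S.q u y := (ladd _ _ _).2 hy.2
  rw [← h1, S.symm, add_comm]
  exact r0 rfl hx.2

/-- the hypotheses of the end -/
structure EH (S : QData V Q) (Hs A : Submodule (ZMod 2) V) (t0 : V) : Prop where
  h0 : t0 ∉ A
  h1 : ∀ t, t + t0 ∈ A → S.ann t ≤ Hs
  h2 : ∀ v ∈ Hs, ∀ w ∈ Hs, ∃ t, t + t0 ∈ A ∧ S.q t v = S.z ∧ S.q t w = S.z

variable {Hs A : Submodule (ZMod 2) V} {t0 : V}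

theorem EH.lkT (E : EH S Hs A t0) {p u : V} (h : p + t0 ∈ A ∨ u + t0 ∈ A) : LK S Hs p u := by
  rintro v ⟨hv, x, hx, e⟩
  rw [S.symm] at e
  obtain ⟨y, h3, h4⟩ := cs e
  have hy : y ∈ Hs := by
    rcases h with h | h
    · have h5 : v + y ∈ Hs := E.h1 p h (show S.q p (v + y) = S.z from rc rfl h3)
      exact (Hs.add_mem_iff_right hv).1 h5
    · have h5 : x + y ∈ Hs := E.h1 u h (show S.q u (x + y) = S.z from rc rfl (h4.trans e))
      exact (Hs.add_mem_iff_right hx).1 h5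
  have : v = (v + y) + y := by rw [xyy]
  rw [this]
  refine Submodule.add_mem_sup ⟨Hs.add_mem hv hy, ?_⟩ ⟨hy, ?_⟩
  · show S.q p (v + y) = S.z
    exact rc rfl h3
  · show S.q (p + u) y = S.z
    exact (ladd _ _ _).1 (h3.trans h4.symm)

section count
variable [Fintype V]

theorem EH.shift (E : EH S Hs A t0) (P : V → V → V → Prop)
    (hP : ∀ p v w, P p v w → v ∈ Hs ∧ w ∈ Hs)
    (hs : ∀ v w t, S.q t v = S.z → S.q t w = S.z → ∀ p, P p v w ↔ P (p + t) v w) :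
    ∑ p : V, ∑ v : V, ∑ w : V, ind (p ∈ A ∧ P p v w) =
      ∑ p : V, ∑ v : V, ∑ w : V, ind (p + t0 ∈ A ∧ P p v w) := by
  refine shiftG (fun p v w => p ∈ A ∧ P p v w) (fun p v w => p + t0 ∈ A ∧ P p v w) ?_
  intro v w
  by_cases hvw : v ∈ Hs ∧ w ∈ Hs
  · obtain ⟨t, h3, h4, h5⟩ := E.h2 v hvw.1 w hvw.2
    refine ⟨t, fun p => ?_⟩
    show p ∈ A ∧ P p v w ↔ p + t + t0 ∈ A ∧ P (p + t) v w
    rw [← hs v w t h4 h5 p, add_assoc, A.add_mem_iff_left h3]
  · refine ⟨0, fun p => ?_⟩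
    constructor
    · intro h
      exact absurd (hP _ _ _ h.2) hvw
    · intro h
      exact absurd (hP _ _ _ h.2) hvw

/-- pairs in `A` are linked -/
theorem EH.lkA (E : EH S Hs A t0) (u : V) {p : V} (hp : p ∈ A) : LK S Hs p u := by
  let ls : V → ℕ := fun p => Nat.card (KH S Hs p) * Nat.card (KH S Hs (p + u))
  let rs : V → ℕ := fun p => (∑ v : V, ind (EV S Hs p u v)) *
    Nat.card (KH S Hs p ⊓ KH S Hs (p + u) : Submodule (ZMod 2) V)
  have hls : ∀ (C : V → Prop) (p : V), ind (C p) * ls p = ∑ v : V, ∑ w : V,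
      ind (C p ∧ (v ∈ KH S Hs p ∧ w ∈ KH S Hs (p + u))) := by
    intro C p
    show ind (C p) * (Nat.card (KH S Hs p) * Nat.card (KH S Hs (p + u))) = _
    rw [natCard_eq, natCard_eq, ind_mul_sum, Finset.mul_sum]
    refine Finset.sum_congr rfl fun v _ => ?_
    rw [Finset.mul_sum]
    exact Finset.sum_congr rfl fun w _ => (ind_and _ _).symm
  have hrs : ∀ (C : V → Prop) (p : V), ind (C p) * rs p = ∑ v : V, ∑ w : V,
      ind (C p ∧ (EV S Hs p u v ∧ w ∈ KH S Hs p ⊓ KH S Hs (p + u))) := by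
    intro C p
    show ind (C p) * ((∑ v : V, ind (EV S Hs p u v)) *
      Nat.card (KH S Hs p ⊓ KH S Hs (p + u) : Submodule (ZMod 2) V)) = _
    rw [natCard_eq, ind_mul_sum, Finset.mul_sum]
    refine Finset.sum_congr rfl fun v _ => ?_
    rw [Finset.mul_sum]
    exact Finset.sum_congr rfl fun w _ => (ind_and _ _).symm
  have mk : ∀ {t v : V} (p : V), S.q t v = S.z → (v ∈ KH S Hs p ↔ v ∈ KH S Hs (p + t)) := by
    intro t v p h
    rw [mem_KH, mem_KH]
    refine and_congr_right fun _ => ?_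
    rw [show S.q (p + t) v = S.q p v from l0 rfl h]
  have mu : ∀ {t v : V} (p : V), S.q t v = S.z →
      (v ∈ KH S Hs (p + u) ↔ v ∈ KH S Hs (p + t + u)) := by
    intro t v p h
    rw [mk (p + u) h, show p + u + t = p + t + u by abel]
  have me : ∀ {t v : V} (p : V), S.q t v = S.z → (EV S Hs p u v ↔ EV S Hs (p + t) u v) := by
    intro t v p h
    unfold EV
    rw [show S.q v (p + t) = S.q v p from r0 rfl (by rw [S.symm]; exact h)]
  have e1 : ∑ p : V, ind (p ∈ A) * ls p = ∑ p : V, ind (p + t0 ∈ A) * ls p := by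
    have a1 : ∀ p : V, ind (p ∈ A) * ls p = _ := fun p => hls (fun p => p ∈ A) p
    have a2 : ∀ p : V, ind (p + t0 ∈ A) * ls p = _ := fun p => hls (fun p => p + t0 ∈ A) p
    simp only [a1, a2]
    refine E.shift (fun p v w => v ∈ KH S Hs p ∧ w ∈ KH S Hs (p + u))
      (fun p v w h => ⟨h.1.1, h.2.1⟩) fun v w t h3 h4 p => ?_
    show v ∈ KH S Hs p ∧ w ∈ KH S Hs (p + u) ↔ v ∈ KH S Hs (p + t) ∧ w ∈ KH S Hs (p + t + u)
    rw [← mk p h3, ← mu p h4]
  have e2 : ∑ p : V, ind (p ∈ A) * rs p = ∑ p : V, ind (p + t0 ∈ A) * rs p := by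
    have a1 : ∀ p : V, ind (p ∈ A) * rs p = _ := fun p => hrs (fun p => p ∈ A) p
    have a2 : ∀ p : V, ind (p + t0 ∈ A) * rs p = _ := fun p => hrs (fun p => p + t0 ∈ A) p
    simp only [a1, a2]
    refine E.shift (fun p v w => EV S Hs p u v ∧ w ∈ KH S Hs p ⊓ KH S Hs (p + u))
      (fun p v w h => ⟨h.1.1, h.2.1.1⟩) fun v w t h3 h4 p => ?_
    show EV S Hs p u v ∧ w ∈ KH S Hs p ⊓ KH S Hs (p + u) ↔
      EV S Hs (p + t) u v ∧ w ∈ KH S Hs (p + t) ⊓ KH S Hs (p + t + u)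
    rw [← me p h3, Submodule.mem_inf, Submodule.mem_inf, ← mk p h4, ← mu p h4]
  have e3 : ∑ p : V, ind (p + t0 ∈ A) * ls p = ∑ p : V, ind (p + t0 ∈ A) * rs p := by
    refine Finset.sum_congr rfl fun p _ => ?_
    by_cases hp : p + t0 ∈ A
    · congr 1
      exact (cm_iff _ _ _ (sup_EV p u)).2 (E.lkT (Or.inl hp))
    · have : ind (p + t0 ∈ A) = 0 := if_neg hp
      rw [this, zero_mul, zero_mul]
  have e4 : ∑ p : V, ind (p ∈ A) * ls p = ∑ p : V, ind (p ∈ A) * rs p := by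
    rw [e1, e3, ← e2]
  rw [Finset.sum_eq_sum_iff_of_le fun p _ =>
    Nat.mul_le_mul_left _ (cm_le _ _ _ (sup_EV p u))] at e4
  have e5 := e4 p (Finset.mem_univ _)
  have : ind (p ∈ A) = 1 := if_pos hp
  rw [this, one_mul, one_mul] at e5
  exact (cm_iff _ _ _ (sup_EV p u)).1 e5

end count

/-- the group `A ∪ (t0 + A)` -/
def PM (A : Submodule (ZMod 2) V) (t0 : V) : Submodule (ZMod 2) V where
  carrier := {p | p ∈ A ∨ p + t0 ∈ A}
  add_mem' := by
    rintro x y (hx | hx) (hy | hy)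
    · exact Or.inl (A.add_mem hx hy)
    · right
      rw [add_assoc]
      exact A.add_mem hx hy
    · right
      rw [show x + y + t0 = x + t0 + y by abel]
      exact A.add_mem hx hy
    · left
      have h := A.add_mem hx hy
      rwa [show x + t0 + (y + t0) = x + y + t0 + t0 by abel, xyy] at h
  zero_mem' := Or.inl A.zero_mem
  smul_mem' := by
    intro c x hx
    rcases zm c with rfl | rfl
    · rw [zero_smul]
      exact Or.inl A.zero_mem
    · rw [one_smul]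
      exact hx

theorem mem_PM {p : V} : p ∈ PM A t0 ↔ p ∈ A ∨ p + t0 ∈ A := Iff.rfl

theorem EH.lk [Fintype V] (E : EH S Hs A t0) {p u : V} (hp : p ∈ PM A t0) : LK S Hs p u := by
  rcases hp with hp | hp
  · exact E.lkA u hp
  · exact E.lkT (Or.inl hp)

/-- the elements of `PM` which annihilate `v` -/
def Lv (S : QData V Q) (A : Submodule (ZMod 2) V) (t0 v : V) : Submodule (ZMod 2) (PM A t0) :=
  (S.ann v).comap (PM A t0).subtype

theorem mem_Lv {v : V} {p : PM A t0} : p ∈ Lv S A t0 v ↔ S.q v p.1 = S.z := Iff.rfl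

/-- the elements whose value at `v` is a value of `u` on `Hs` -/
def CM (S : QData V Q) (Hs : Submodule (ZMod 2) V) (u v : V) : Submodule (ZMod 2) V where
  carrier := {p | ∃ x ∈ Hs, S.q v p = S.q u x}
  add_mem' := by
    rintro p p' ⟨x, hx, h⟩ ⟨x', hx', h'⟩
    exact ⟨x + x', Hs.add_mem hx hx', val_add' h h'⟩
  zero_mem' := ⟨0, Hs.zero_mem, by rw [q0, q0]⟩
  smul_mem' := by
    rintro c p ⟨x, hx, h⟩
    rcases zm c with rfl | rfl
    · rw [zero_smul]
      exact ⟨0, Hs.zero_mem, by rw [q0, q0]⟩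
    · rw [one_smul]
      exact ⟨x, hx, h⟩

/-- the size of the kernel on `Hs` -/
noncomputable def kap (S : QData V Q) (Hs A : Submodule (ZMod 2) V) (t0 : V) (p : PM A t0) : ℤ :=
  (Nat.card (KH S Hs p.1) : ℤ)

section fin
variable [Fintype V]

theorem kap_sum (p : PM A t0) : kap S Hs A t0 p =
    ∑ v : V, (ind (v ∈ Hs) : ℤ) * (ind (p ∈ Lv S A t0 v) : ℤ) := by
  unfold kap
  rw [natCard_eq, Nat.cast_sum]
  refine Finset.sum_congr rfl fun v _ => ?_
  rw [← Nat.cast_mul, ← ind_and]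
  congr 2
  apply propext
  rw [mem_KH, mem_Lv, S.symm]

theorem kap_hat [Fintype (PM A t0)] (Λ : Module.Dual (ZMod 2) (PM A t0)) :
    ∑ p : PM A t0, sg (Λ p) * kap S Hs A t0 p =
      ∑ v : V, (ind (v ∈ Hs) : ℤ) * T Λ (Lv S A t0 v) := by
  simp only [kap_sum, Finset.mul_sum]
  rw [Finset.sum_comm]
  refine Finset.sum_congr rfl fun v _ => ?_
  unfold T
  rw [Finset.mul_sum]
  refine Finset.sum_congr rfl fun p _ => ?_
  ring

theorem EH.kap_pd (E : EH S Hs A t0) [Fintype (PM A t0)] (χ : PM A t0)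
    (Λ : Module.Dual (ZMod 2) (PM A t0)) :
    0 ≤ ∑ ψ : PM A t0, sg (Λ ψ) * (kap S Hs A t0 ψ * kap S Hs A t0 (ψ + χ)) := by
  have h1 : ∀ ψ : PM A t0, kap S Hs A t0 ψ * kap S Hs A t0 (ψ + χ) = ∑ v : V, ∑ w : V,
      ((ind (v ∈ Hs) : ℤ) * (ind (w ∈ Hs ∧ S.q χ.1 w = S.z) : ℤ)) *
      (ind (ψ ∈ (CM S Hs χ.1 v).comap (PM A t0).subtype ⊓ Lv S A t0 w) : ℤ) := by
    intro ψ
    have h2 := (cm_iff _ _ _ (sup_EV (S := S) (Hs := Hs) ψ.1 χ.1)).2 (E.lk ψ.2)
    have h3 : kap S Hs A t0 ψ * kap S Hs A t0 (ψ + χ) =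
        ((Nat.card (KH S Hs ψ.1) * Nat.card (KH S Hs (ψ.1 + χ.1)) : ℕ) : ℤ) := by
      unfold kap
      push_cast
      rfl
    rw [h3, h2, natCard_eq, ind_mul_sum]
    push_cast
    refine Finset.sum_congr rfl fun v _ => Finset.sum_congr rfl fun w _ => ?_
    rw [← Nat.cast_mul, ← Nat.cast_mul, ← ind_and, ← ind_and]
    congr 2
    apply propext
    rw [Submodule.mem_inf, Submodule.mem_inf, mem_KH, mem_KH, mem_Lv]
    constructor
    · rintro ⟨⟨a1, a2⟩, ⟨a3, a4⟩, -, a5⟩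
      refine ⟨⟨a1, a3, ?_⟩, a2, by rw [S.symm]; exact a4⟩
      have a6 : S.q ψ.1 w = S.q χ.1 w := (ladd _ _ _).2 a5
      rw [← a6, a4]
    · rintro ⟨⟨a1, a3, a5⟩, a2, a4⟩
      rw [S.symm] at a4
      refine ⟨⟨a1, a2⟩, ⟨a3, a4⟩, a3, ?_⟩
      exact (ladd _ _ _).1 (a4.trans a5.symm)
  have h2 : ∑ ψ : PM A t0, sg (Λ ψ) * (kap S Hs A t0 ψ * kap S Hs A t0 (ψ + χ)) =
      ∑ v : V, ∑ w : V, ((ind (v ∈ Hs) : ℤ) * (ind (w ∈ Hs ∧ S.q χ.1 w = S.z) : ℤ)) *
      T Λ ((CM S Hs χ.1 v).comap (PM A t0).subtype ⊓ Lv S A t0 w) := by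
    simp only [h1, Finset.mul_sum]
    rw [Finset.sum_comm]
    refine Finset.sum_congr rfl fun v _ => ?_
    rw [Finset.sum_comm]
    refine Finset.sum_congr rfl fun w _ => ?_
    unfold T
    rw [Finset.mul_sum]
    refine Finset.sum_congr rfl fun ψ _ => ?_
    ring
  rw [h2]
  exact Finset.sum_nonneg fun v _ => Finset.sum_nonneg fun w _ =>
    mul_nonneg (mul_nonneg (Int.natCast_nonneg _) (Int.natCast_nonneg _)) (T_nonneg _ _)

theorem EH.supp_add (E : EH S Hs A t0) {a b : Module.Dual (ZMod 2) (PM A t0)}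
    (ha : ∃ v ∈ Hs, ∀ ψ ∈ Lv S A t0 v, a ψ = 0)
    (hb : ∃ v ∈ Hs, ∀ ψ ∈ Lv S A t0 v, b ψ = 0) :
    ∃ v ∈ Hs, ∀ ψ ∈ Lv S A t0 v, (a + b) ψ = 0 := by
  have := Fintype.ofFinite (PM A t0)
  have hnn : ∀ (c : Module.Dual (ZMod 2) (PM A t0)) (w : V),
      0 ≤ (ind (w ∈ Hs) : ℤ) * T c (Lv S A t0 w) :=
    fun c w => mul_nonneg (Int.natCast_nonneg _) (T_nonneg _ _)
  have hpos : ∀ c : Module.Dual (ZMod 2) (PM A t0),
      (∃ v ∈ Hs, ∀ ψ ∈ Lv S A t0 v, c ψ = 0) →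
      0 < ∑ φ : PM A t0, sg (c φ) * kap S Hs A t0 φ := by
    rintro c ⟨v, hv, hc⟩
    rw [kap_hat]
    refine Finset.sum_pos' (fun w _ => hnn c w) ⟨v, Finset.mem_univ _, ?_⟩
    have h1 : ind (v ∈ Hs) = 1 := if_pos hv
    rw [h1, Nat.cast_one, one_mul]
    exact T_pos hc
  by_contra hcon
  have h1 : ∑ φ : PM A t0, sg ((a + b) φ) * kap S Hs A t0 φ = 0 := by
    rw [kap_hat]
    refine Finset.sum_eq_zero fun v _ => ?_
    by_cases hv : v ∈ Hs
    · rw [T_zero fun h => hcon ⟨v, hv, h⟩, mul_zero]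
    · have h1 : ind (v ∈ Hs) = 0 := if_neg hv
      rw [h1, Nat.cast_zero, zero_mul]
  have h2 := conv_ineq (kap S Hs A t0) E.kap_pd a b
  rw [h1, zero_mul] at h2
  have h3 := mul_pos (hpos a ha) (hpos b hb)
  linarith

/-- some element of the coset annihilates `Hs` -/
theorem EH.fin (E : EH S Hs A t0) : ∃ t, t + t0 ∈ A ∧ ∀ v ∈ Hs, S.q t v = S.z := by
  have := Fintype.ofFinite (PM A t0)
  let Sd : Submodule (ZMod 2) (Module.Dual (ZMod 2) (PM A t0)) :=
    { carrier := {a | ∃ v ∈ Hs, ∀ ψ ∈ Lv S A t0 v, a ψ = 0}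
      add_mem' := fun ha hb => E.supp_add ha hb
      zero_mem' := ⟨0, Hs.zero_mem, fun ψ _ => rfl⟩
      smul_mem' := by
        rintro c a ⟨v, hv, h⟩
        exact ⟨v, hv, fun ψ hψ => by rw [LinearMap.smul_apply, h ψ hψ, smul_zero]⟩ }
  by_contra hcon
  push Not at hcon
  have h1 : ∀ ψ ∈ Sd.dualCoannihilator, ψ.1 ∈ A := by
    intro ψ hψ
    rw [Submodule.mem_dualCoannihilator] at hψ
    have h2 : ∀ v ∈ Hs, S.q ψ.1 v = S.z := by
      intro v hv
      have h3 : ψ ∈ Lv S A t0 v := by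
        by_contra hc
        obtain ⟨f, hf1, hf2⟩ := exists_functional hc
        have h4 := hψ f ⟨v, hv, hf2⟩
        rw [hf1] at h4
        exact one_ne_zero h4
      rw [S.symm]
      exact h3
    rcases ψ.2 with h | h
    · exact h
    · obtain ⟨v, hv, hne⟩ := hcon ψ.1 h
      exact absurd (h2 v hv) hne
  have ht0 : t0 ∈ PM A t0 := Or.inr (by rw [ss]; exact A.zero_mem)
  have h2 : (⟨t0, ht0⟩ : PM A t0) ∉ A.comap (PM A t0).subtype := fun h => E.h0 h
  obtain ⟨f, hf1, hf2⟩ := exists_functional h2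
  have h3 : f ∈ Sd := by
    rw [← Subspace.dualCoannihilator_dualAnnihilator_eq (W := Sd), Submodule.mem_dualAnnihilator]
    intro ψ hψ
    exact hf2 ψ (h1 ψ hψ)
  obtain ⟨v, hv, h4⟩ := h3
  obtain ⟨t, h5, h6, -⟩ := E.h2 v hv v hv
  have h7 : f ⟨t, Or.inr h5⟩ = 0 := h4 _ (by rw [mem_Lv, S.symm]; exact h6)
  have h8 : f (⟨t, Or.inr h5⟩ + ⟨t0, ht0⟩) = 0 := hf2 _ h5
  rw [map_add, h7, hf1, zero_add] at h8
  exact one_ne_zero h8

end fin

end Pool.Agent.ZP13
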