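import Pool.Agent.REL34.Step3
import Pool.Agent.ZP13.End

/-!
# Theorem Z+ (note 3284 of helper13), set valued

`S` is a finite linked structure with `-1 = 1`, `a` a symbol, `D` the elements annihilated by some
slot of `a`.  If all elements of `D` outside a hyperplane of `D` are slots of `a`, then some slot
of `a` annihilates exactly this hyperplane.  (Steps (0)-(3) follow `REL34/Step1, Step3`.)
-/

set_option autoImplicit false
set_option linter.unusedSectionVars false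

namespace Pool.Agent.ZP13

open Pool.Agent.Helper58.PLine (QData zm zm_ne_zero exists_functional)
open Pool.Agent.HAS82 (ind ind_and natCard_eq card_mul card_mono)
open Pool.Agent.REL34
open scoped Classical
open Finset

variable {V Q : Type} [AddCommGroup V] [Module (ZMod 2) V] {S : QData V Q} {a : Q}
  {D : Submodule (ZMod 2) V} {l : V →ₗ[ZMod 2] ZMod 2}

/-- the hypotheses of Theorem Z+ -/
structure Hz (S : QData V Q) (a : Q) (D : Submodule (ZMod 2) V) (l : V →ₗ[ZMod 2] ZMod 2) :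
    Prop where
  he : S.e = 0
  az : a ≠ S.z
  dm : ∀ t, t ∈ D ↔ ∃ s, Sl S a s ∧ S.q s t = S.z
  hl : ∀ v ∈ D, l v ≠ 0 → Sl S a v

theorem Hz.self (H : Hz S a D l) (s : V) : S.q s s = S.z := by
  have := S.diag s
  rwa [H.he, add_zero] at this

theorem Hz.sD (H : Hz S a D l) {s : V} (h : Sl S a s) : s ∈ D := (H.dm s).2 ⟨s, h, H.self s⟩

theorem Hz.aD (H : Hz S a D l) {s t : V} (h : Sl S a s) (ht : S.q s t = S.z) : t ∈ D :=
  (H.dm t).2 ⟨s, h, ht⟩

theorem Hz.nz (H : Hz S a D l) : ¬ Sl S a 0 := by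
  rintro ⟨w, hw⟩
  rw [zq] at hw
  exact H.az hw.symm

theorem Hz.zero (H : Hz S a D l) : Hz S a D 0 :=
  ⟨H.he, H.az, H.dm, fun _ _ h => absurd rfl h⟩

theorem Hz.plane' (H : Hz S a D l) {v w : V} (hv : v ∈ D) (hw : w ∈ D) :
    ∃ t0, S.q v t0 = val S a l v ∧ S.q w t0 = val S a l w := by
  by_cases e : l v = 0 <;> by_cases e' : l w = 0
  · exact ⟨0, by rw [q0, val_of0 e], by rw [q0, val_of0 e']⟩
  · have h1 : l (v + w) ≠ 0 := by rw [map_add, e, zero_add]; exact e'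
    obtain ⟨t, h2, h3⟩ := lk (H.hl _ hw e') (H.hl _ (D.add_mem hv hw) h1)
    refine ⟨t, ?_, by rw [val_of1 e', h2]⟩
    have h4 := lc h2 h3
    rw [add_comm v, xxy] at h4
    rw [h4, val_of0 e]
  · have h1 : l (v + w) ≠ 0 := by rw [map_add, e', add_zero]; exact e
    obtain ⟨t, h2, h3⟩ := lk (H.hl _ hv e) (H.hl _ (D.add_mem hv hw) h1)
    refine ⟨t, by rw [val_of1 e, h2], ?_⟩
    have h4 := lc h2 h3
    rw [xxy] at h4
    rw [h4, val_of0 e']
  · obtain ⟨t, h2, h3⟩ := lk (H.hl _ hv e) (H.hl _ hw e')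
    exact ⟨t, by rw [val_of1 e, h2], by rw [val_of1 e', h3]⟩

theorem Hz.plane (H : Hz S a D l) (v w : V) :
    ∃ t0, (v ∈ D → S.q v t0 = val S a l v) ∧ (w ∈ D → S.q w t0 = val S a l w) := by
  by_cases hv : v ∈ D <;> by_cases hw : w ∈ D
  · obtain ⟨t, h1, h2⟩ := H.plane' hv hw
    exact ⟨t, fun _ => h1, fun _ => h2⟩
  · obtain ⟨t, h1, -⟩ := H.plane' hv hv
    exact ⟨t, fun _ => h1, fun h => absurd h hw⟩
  · obtain ⟨t, h1, -⟩ := H.plane' hw hw
    exact ⟨t, fun h => absurd h hv, fun _ => h1⟩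
  · exact ⟨0, fun h => absurd h hv, fun h => absurd h hw⟩

theorem Hz.sup_le (H : Hz S a D l) (u t : V) :
    ∀ v ∈ KK S a D l t ⊔ KK S a D l (t + u), PE S a D l u t v := by
  intro v hv
  obtain ⟨x, hx, y, hy, rfl⟩ := Submodule.mem_sup.1 hv
  obtain ⟨t0, h1, h2⟩ := H.plane' hx.1 hy.1
  refine ⟨D.add_mem hx.1 hy.1, t0, val_add h1 h2, y, hy.1, ?_⟩
  have h3 : S.q x (t0 + t) = S.z := rc h1 hx.2
  have h4 : S.q y (t0 + (t + u)) = S.z := rc h2 hy.2
  rw [← add_assoc, ← S.add] at h4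
  rw [add_comm]
  exact l0 h4 h3

/-- step (1): termwise equality -/
theorem Hz.tw [Fintype V] (H : Hz S a D l) {u : V} (hu : Sl S a u) (t : V) :
    Nat.card (KK S a D l t) * Nat.card (KK S a D l (t + u)) =
      (∑ v : V, ind (PE S a D l u t v)) *
      Nat.card (KK S a D l t ⊓ KK S a D l (t + u) : Submodule (ZMod 2) V) := by
  have hs : ∀ l' : V →ₗ[ZMod 2] ZMod 2, ∑ t : V, Nat.card (KK S a D l' t) *
      Nat.card (KK S a D l' (t + u)) = ∑ t : V, ∑ v : V, ∑ w : V,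
      ind (v ∈ KK S a D l' t ∧ w ∈ KK S a D l' (t + u)) := by
    intro l'
    refine Finset.sum_congr rfl fun t _ => ?_
    rw [natCard_eq, natCard_eq, ind_mul_sum]
  have hr : ∀ l' : V →ₗ[ZMod 2] ZMod 2, ∑ t : V, (∑ v : V, ind (PE S a D l' u t v)) *
      Nat.card (KK S a D l' t ⊓ KK S a D l' (t + u) : Submodule (ZMod 2) V) =
      ∑ t : V, ∑ v : V, ∑ w : V,
      ind (PE S a D l' u t v ∧ w ∈ KK S a D l' t ⊓ KK S a D l' (t + u)) := by
    intro l'
    refine Finset.sum_congr rfl fun t _ => ?_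
    rw [natCard_eq, ind_mul_sum]
  have e1 : ∑ t : V, Nat.card (KK S a D l t) * Nat.card (KK S a D l (t + u)) =
      ∑ t : V, Nat.card (KK S a D 0 t) * Nat.card (KK S a D 0 (t + u)) := by
    rw [hs, hs]
    refine shiftG _ _ fun v w => ?_
    obtain ⟨t0, h1, h2⟩ := H.plane v w
    refine ⟨t0, fun t => ?_⟩
    rw [sh1 h1 t, sh1 h2 (t + u), show t + u + t0 = t + t0 + u by abel]
  have e2 : ∑ t : V, (∑ v : V, ind (PE S a D l u t v)) *
      Nat.card (KK S a D l t ⊓ KK S a D l (t + u) : Submodule (ZMod 2) V) =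
      ∑ t : V, (∑ v : V, ind (PE S a D 0 u t v)) *
      Nat.card (KK S a D 0 t ⊓ KK S a D 0 (t + u) : Submodule (ZMod 2) V) := by
    rw [hr, hr]
    refine shiftG _ _ fun v w => ?_
    obtain ⟨t0, h1, h2⟩ := H.plane v w
    refine ⟨t0, fun t => ?_⟩
    rw [sh2 h1 t, Submodule.mem_inf, Submodule.mem_inf, sh1 h2 t, sh1 h2 (t + u),
      show t + u + t0 = t + t0 + u by abel]
  have e3 : ∀ t : V, Nat.card (KK S a D 0 t) * Nat.card (KK S a D 0 (t + u)) =
      (∑ v : V, ind (PE S a D 0 u t v)) *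
      Nat.card (KK S a D 0 t ⊓ KK S a D 0 (t + u) : Submodule (ZMod 2) V) := by
    intro t
    rw [cm_iff _ _ _ (H.zero.sup_le u t)]
    rintro v ⟨hv, t0, h1, v', hv', h2⟩
    rw [val_zero] at h1
    have h3 : S.q v t = S.q v' u := by
      rw [← h2, S.add, show t + (t0 + t) = t0 + (t + t) by abel, ss, add_zero, h1]
    obtain ⟨x, h4, h5⟩ := S.link t v u v' (by rw [S.symm t, S.symm u, h3])
    have h6 : S.q x t = S.q v t := by rw [S.symm x, ← h4, S.symm]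
    have h7 : S.q x u = S.q v' u := by rw [S.symm x, ← h5, S.symm]
    have hx : x ∈ D := by
      have h8 : S.q (v' + x) u = S.z := lc rfl h7
      have h9 := D.add_mem hv' (H.aD hu (by rw [S.symm]; exact h8))
      rwa [xxy] at h9
    have : v = (v + x) + x := by rw [xyy]
    rw [this]
    refine Submodule.add_mem_sup ⟨D.add_mem hv hx, ?_⟩ ⟨hx, ?_⟩
    · rw [val_zero]
      exact lc rfl h6
    · rw [val_zero, ← S.add, h6, h7, h3]
  have e4 : ∑ t : V, Nat.card (KK S a D l t) * Nat.card (KK S a D l (t + u)) =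
      ∑ t : V, (∑ v : V, ind (PE S a D l u t v)) *
      Nat.card (KK S a D l t ⊓ KK S a D l (t + u) : Submodule (ZMod 2) V) := by
    rw [e1, e2]
    exact Finset.sum_congr rfl fun t _ => e3 t
  exact (Finset.sum_eq_sum_iff_of_le fun t _ => cm_le _ _ _ (H.sup_le u t)).1 e4 t
    (Finset.mem_univ _)

/-- step (2), slots -/
theorem Hz.one [Fintype V] (H : Hz S a D l) {v0 : V} (hv0 : v0 ∈ D)
    (hlv : l v0 ≠ 0) {u : V} (hu : Sl S a u) : ∃ w, S.q u w = a ∧ l w ≠ 0 := by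
  have e5 := H.tw hu 0
  rw [cm_iff _ _ _ (H.sup_le u 0)] at e5
  obtain ⟨w0, hw0⟩ := hu
  have h1 : PE S a D l u 0 v0 := by
    obtain ⟨t0, h1, -⟩ := H.plane' hv0 hv0
    refine ⟨hv0, t0, h1, w0, H.sD (Sl.co hw0), ?_⟩
    rw [add_zero, h1, val_of1 hlv, S.symm, hw0]
  obtain ⟨x, hx, y, hy, hxy⟩ := Submodule.mem_sup.1 (e5 v0 h1)
  rw [zero_add] at hy
  have hx0 : l x = 0 := by
    by_contra hc
    have h2 := hx.2
    rw [val_of1 hc, q0] at h2
    exact H.az h2.symm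
  have hy0 : l y ≠ 0 := by
    intro h2
    apply hlv
    rw [← hxy, map_add, hx0, h2, add_zero]
  refine ⟨y, ?_, hy0⟩
  rw [S.symm, hy.2, val_of1 hy0]

theorem Hz.X_eq (H : Hz S a D l) {s : V} (h : Sl S a s) : X S D s = S.ann s :=
  inf_eq_right.2 fun _ hv => H.aD h hv

variable [Fintype V]

theorem Hz.KK_slot (H : Hz S a D l) {v0 : V} (hv0 : v0 ∈ D)
    (hlv : l v0 ≠ 0) {t : V} (ht : Sl S a t) :
    Nat.card (KK S a D l t) = 2 * Nat.card (X S D t ⊓ LinearMap.ker l : Submodule (ZMod 2) V) := by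
  obtain ⟨w, h1, h2⟩ := H.one hv0 hlv ht
  have hw : w ∈ KK S a D l t := ⟨H.sD (Sl.co h1), by rw [val_of1 h2, S.symm, h1]⟩
  rw [card_half hw h2]
  have e : KK S a D l t ⊓ LinearMap.ker l = X S D t ⊓ LinearMap.ker l := by
    ext v
    constructor
    · rintro ⟨⟨b1, b2⟩, b3⟩
      rw [val_of0 b3, S.symm] at b2
      exact ⟨⟨b1, b2⟩, b3⟩
    · rintro ⟨⟨b1, b2⟩, b3⟩
      refine ⟨⟨b1, ?_⟩, b3⟩
      rw [val_of0 b3, S.symm]
      exact b2
  rw [e]

theorem Hz.KK_non (H : Hz S a D l) {t : V} (ht : ¬ Sl S a t) :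
    KK S a D l t = X S D t ⊓ LinearMap.ker l := by
  ext v
  constructor
  · rintro ⟨b1, b2⟩
    have b3 : l v = 0 := by
      by_contra hc
      rw [val_of1 hc] at b2
      exact ht (Sl.co b2)
    rw [val_of0 b3, S.symm] at b2
    exact ⟨⟨b1, b2⟩, b3⟩
  · rintro ⟨⟨b1, b2⟩, b3⟩
    refine ⟨b1, ?_⟩
    rw [val_of0 b3, S.symm]
    exact b2

theorem Hz.sum_sq (H : Hz S a D l) :
    ∑ t : V, Nat.card (KK S a D l t) * Nat.card (KK S a D l t) = ∑ t : V, g2 S D t := by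
  have hs : ∀ l' : V →ₗ[ZMod 2] ZMod 2, ∑ t : V, Nat.card (KK S a D l' t) *
      Nat.card (KK S a D l' t) = ∑ t : V, ∑ v : V, ∑ w : V,
      ind (v ∈ KK S a D l' t ∧ w ∈ KK S a D l' t) := by
    intro l'
    refine Finset.sum_congr rfl fun t _ => ?_
    rw [natCard_eq, ind_mul_sum]
  have e0 : ∑ t : V, g2 S D t = ∑ t : V, Nat.card (KK S a D 0 t) * Nat.card (KK S a D 0 t) := by
    refine Finset.sum_congr rfl fun t _ => ?_
    rw [KK_zero]
    rfl
  rw [e0, hs, hs]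
  refine shiftG _ _ fun v w => ?_
  obtain ⟨t0, h1, h2⟩ := H.plane v w
  refine ⟨t0, fun t => ?_⟩
  rw [sh1 h1 t, sh1 h2 t]

/-- `t` is a slot and `l` vanishes on its annihilator -/
def TT (S : QData V Q) (a : Q) (D : Submodule (ZMod 2) V) (l : V →ₗ[ZMod 2] ZMod 2) (t : V) :
    Prop := Sl S a t ∧ Van S D l t

/-- `t` is no slot and `l` does not vanish on the elements of `D` annihilated by `t` -/
def AA (S : QData V Q) (a : Q) (D : Submodule (ZMod 2) V) (l : V →ₗ[ZMod 2] ZMod 2) (t : V) :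
    Prop := ¬ Sl S a t ∧ ¬ Van S D l t

/-- the four values of the quotient of the two kernels -/
theorem Hz.quot (H : Hz S a D l) {v0 : V} (hv0 : v0 ∈ D) (hlv : l v0 ≠ 0) (t : V) :
    (TT S a D l t ∧ Nat.card (KK S a D l t) = 2 * Nat.card (X S D t)) ∨
    (AA S a D l t ∧ 2 * Nat.card (KK S a D l t) = Nat.card (X S D t)) ∨
    (¬ TT S a D l t ∧ ¬ AA S a D l t ∧ Nat.card (KK S a D l t) = Nat.card (X S D t)) := by
  unfold TT AA
  by_cases hs : Sl S a t <;> by_cases hv : Van S D l t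
  · left
    exact ⟨⟨hs, hv⟩, by rw [H.KK_slot hv0 hlv hs, card_van hv]⟩
  · right; right
    exact ⟨fun h => hv h.2, fun h => h.1 hs, by rw [H.KK_slot hv0 hlv hs, ← card_nvan hv]⟩
  · right; right
    exact ⟨fun h => hs h.1, fun h => h.2 hv, by rw [H.KK_non hs, card_van hv]⟩
  · right; left
    exact ⟨⟨hs, hv⟩, by rw [H.KK_non hs, ← card_nvan hv]⟩

/-- step (3) -/
theorem Hz.three (H : Hz S a D l) {v0 : V} (hv0 : v0 ∈ D)
    (hlv : l v0 ≠ 0) : ∑ t : V, ind (AA S a D l t) * g2 S D t =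
      4 * ∑ t : V, ind (TT S a D l t) * g2 S D t := by
  have h1 : ∀ t : V, 4 * (Nat.card (KK S a D l t) * Nat.card (KK S a D l t)) +
      3 * (ind (AA S a D l t) * g2 S D t) =
      4 * g2 S D t + 12 * (ind (TT S a D l t) * g2 S D t) := by
    intro t
    unfold g2
    rcases H.quot hv0 hlv t with ⟨h, e⟩ | ⟨h, e⟩ | ⟨h, h', e⟩
    · have h' : ¬ AA S a D l t := fun h' => h'.1 h.1
      rw [ind_neg h', ind_pos h, e]
      ring
    · have h' : ¬ TT S a D l t := fun h' => h.1 h'.1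
      rw [ind_neg h', ind_pos h, ← e]
      ring
    · rw [ind_neg h, ind_neg h', e]
      ring
  have h2 := Finset.sum_congr (rfl : (Finset.univ : Finset V) = Finset.univ) fun t _ => h1 t
  rw [Finset.sum_add_distrib, Finset.sum_add_distrib, ← Finset.mul_sum, ← Finset.mul_sum,
    ← Finset.mul_sum, ← Finset.mul_sum, H.sum_sq] at h2
  omega

theorem Hz.AA0 (H : Hz S a D l) {v0 : V} (hv0 : v0 ∈ D) (hlv : l v0 ≠ 0) : AA S a D l 0 :=
  ⟨H.nz, fun h => hlv (h v0 ⟨hv0, zq v0⟩)⟩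

theorem Hz.three' (H : Hz S a D l) {v0 : V} (hv0 : v0 ∈ D)
    (hlv : l v0 ≠ 0) : ∃ t, TT S a D l t := by
  by_contra hcon
  push Not at hcon
  have h1 := H.three hv0 hlv
  have h2 : ∑ t : V, ind (TT S a D l t) * g2 S D t = 0 := by
    refine Finset.sum_eq_zero fun t _ => ?_
    rw [ind_neg (hcon t), zero_mul]
  rw [h2, mul_zero] at h1
  have h3 := (Finset.sum_eq_zero_iff.1 h1) 0 (Finset.mem_univ _)
  rw [ind_pos (H.AA0 hv0 hlv), one_mul] at h3
  have hpos : 0 < Nat.card (X S D 0) := Nat.card_pos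
  unfold g2 at h3
  exact absurd h3 (Nat.mul_pos hpos hpos).ne'

/-- step (4), the equation -/
theorem Hz.four (H : Hz S a D l) {t : V} (ht : TT S a D l t) (p : V) :
    Nat.card (KK S a D l p) * Nat.card (KK S a D l (p + t)) =
      Nat.card (X S D p) * Nat.card (X S D (p + t)) := by
  rw [← KK_zero (a := a), ← KK_zero (a := a), H.tw ht.1 p, H.zero.tw ht.1 p]
  obtain ⟨n, hn⟩ := ht.1
  have hnD : n ∈ D := H.sD (Sl.co hn)
  have e1 : ∀ v, PE S a D l t p v ↔ PE S a D 0 t p v := by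
    intro v
    unfold PE
    refine and_congr_right fun hv => ?_
    by_cases e : l v = 0
    · rw [val_of0 e, val_zero]
    · rw [val_of1 e, val_zero]
      constructor
      · rintro ⟨t1, h1, v', hv', h2⟩
        refine ⟨0, q0 v, v' + n, D.add_mem hv' hnD, ?_⟩
        have h3 : S.q v (t1 + p + t1) = S.q t (v' + n) :=
          val_add' (by rw [h2, S.symm]) (by rw [h1, hn])
        rw [S.symm (v' + n), ← h3, zero_add, show t1 + p + t1 = t1 + (t1 + p) by abel, xxy]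
      · rintro ⟨t1, h1, v', hv', h2⟩
        obtain ⟨t2, h3⟩ := H.hl v hv e
        have h4 : S.q v p = S.q t v' := by
          rw [← S.symm v', ← h2, add_comm]
          exact (r0 rfl h1).symm
        refine ⟨t2, h3, n + v', D.add_mem hnD hv', ?_⟩
        rw [S.symm (n + v')]
        exact val_add' (by rw [h3, hn]) h4
  have e2 : KK S a D l p ⊓ KK S a D l (p + t) = KK S a D 0 p ⊓ KK S a D 0 (p + t) := by
    ext v
    have key : S.q v t = S.z → v ∈ D → l v = 0 := fun h hv =>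
      ht.2 v ⟨hv, (S.symm t v).trans h⟩
    constructor
    · rintro ⟨⟨h1, h2⟩, ⟨-, h4⟩⟩
      have h5 : S.q v t = S.z := by
        have := rc h2 h4
        rwa [xxy] at this
      have h6 := key h5 h1
      rw [val_of0 h6] at h2 h4
      exact ⟨⟨h1, by rw [val_zero]; exact h2⟩, ⟨h1, by rw [val_zero]; exact h4⟩⟩
    · rintro ⟨⟨h1, h2⟩, ⟨-, h4⟩⟩
      rw [val_zero] at h2 h4
      have h5 : S.q v t = S.z := by
        have := rc h2 h4
        rwa [xxy] at this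
      have h6 := key h5 h1
      exact ⟨⟨h1, by rw [val_of0 h6]; exact h2⟩, ⟨h1, by rw [val_of0 h6]; exact h4⟩⟩
  rw [e2]
  congr 1
  exact Finset.sum_congr rfl fun v _ => by rw [propext (e1 v)]

theorem Hz.TA (H : Hz S a D l) {v0 : V} (hv0 : v0 ∈ D) (hlv : l v0 ≠ 0) {t p : V}
    (ht : TT S a D l t) (hp : TT S a D l p) : AA S a D l (p + t) := by
  have h := H.four ht p
  have hX : ∀ q, 0 < Nat.card (X S D q) := fun q => Nat.card_pos
  have hK : ∀ q, 0 < Nat.card (KK S a D l q) := fun q => Nat.card_pos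
  have h1 : Nat.card (KK S a D l p) = 2 * Nat.card (X S D p) := by
    rcases H.quot hv0 hlv p with ⟨-, e⟩ | ⟨h', -⟩ | ⟨h', -⟩
    · exact e
    · exact absurd hp.1 h'.1
    · exact absurd hp h'
  rw [h1] at h
  have h2 : 2 * Nat.card (KK S a D l (p + t)) = Nat.card (X S D (p + t)) := by
    apply Nat.eq_of_mul_eq_mul_left (hX p)
    rw [← h]
    ring
  rcases H.quot hv0 hlv (p + t) with ⟨-, e⟩ | ⟨h', -⟩ | ⟨-, -, e⟩
  · have := hX (p + t)
    omega
  · exact h'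
  · have := hX (p + t)
    omega

theorem Hz.AT (H : Hz S a D l) {v0 : V} (hv0 : v0 ∈ D) (hlv : l v0 ≠ 0) {t p : V}
    (ht : TT S a D l t) (hp : AA S a D l p) : TT S a D l (p + t) := by
  have h := H.four ht p
  have hX : ∀ q, 0 < Nat.card (X S D q) := fun q => Nat.card_pos
  have hK : ∀ q, 0 < Nat.card (KK S a D l q) := fun q => Nat.card_pos
  have h1 : 2 * Nat.card (KK S a D l p) = Nat.card (X S D p) := by
    rcases H.quot hv0 hlv p with ⟨h', -⟩ | ⟨-, e⟩ | ⟨-, h', -⟩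
    · exact absurd h'.1 hp.1
    · exact e
    · exact absurd hp h'
  rw [← h1] at h
  have h2 : Nat.card (KK S a D l (p + t)) = 2 * Nat.card (X S D (p + t)) := by
    apply Nat.eq_of_mul_eq_mul_left (hK p)
    rw [h]
    ring
  rcases H.quot hv0 hlv (p + t) with ⟨h', -⟩ | ⟨-, e⟩ | ⟨-, -, e⟩
  · exact h'
  · have := hX (p + t)
    omega
  · have := hX (p + t)
    omega

/-- step (4): the subgroup -/
def Hz.A (H : Hz S a D l) {v0 : V} (hv0 : v0 ∈ D) (hlv : l v0 ≠ 0) : Submodule (ZMod 2) V where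
  carrier := {r | AA S a D l r}
  add_mem' := by
    intro r r' hr hr'
    obtain ⟨t, ht⟩ := H.three' hv0 hlv
    have h1 := H.AT hv0 hlv ht hr
    have h2 := H.AT hv0 hlv h1 hr'
    have h3 := H.TA hv0 hlv ht h2
    rwa [show r' + (r + t) + t = r + r' + t + t by abel, xyy] at h3
  zero_mem' := H.AA0 hv0 hlv
  smul_mem' := by
    intro c r hr
    rcases zm c with rfl | rfl
    · rw [zero_smul]
      exact H.AA0 hv0 hlv
    · rw [one_smul]
      exact hr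

theorem Hz.mem_A (H : Hz S a D l) {v0 : V} (hv0 : v0 ∈ D) (hlv : l v0 ≠ 0) {r : V} :
    r ∈ H.A hv0 hlv ↔ AA S a D l r := Iff.rfl

/-- `T` is a coset of `A` -/
theorem Hz.mem_T (H : Hz S a D l) {v0 : V} (hv0 : v0 ∈ D) (hlv : l v0 ≠ 0) {t0 : V}
    (ht0 : TT S a D l t0) {t : V} : t + t0 ∈ H.A hv0 hlv ↔ TT S a D l t := by
  constructor
  · intro h
    have h1 := H.AT hv0 hlv ht0 h
    rwa [xyy] at h1
  · intro h
    exact H.TA hv0 hlv ht0 h

/-- step (5): any two elements of the hyperplane are annihilated by one element of `T` -/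
theorem Hz.five (H : Hz S a D l) {v0 : V} (hv0 : v0 ∈ D) (hlv : l v0 ≠ 0) {v w : V}
    (hv : v ∈ D ⊓ LinearMap.ker l) (hw : w ∈ D ⊓ LinearMap.ker l) :
    ∃ t, TT S a D l t ∧ S.q t v = S.z ∧ S.q t w = S.z := by
  obtain ⟨t0, ht0⟩ := H.three' hv0 hlv
  -- the two double counts
  let Y : V → Submodule (ZMod 2) V := fun t => X S D t ⊓ LinearMap.ker l
  have mY : ∀ {t v : V}, v ∈ Y t ↔ (v ∈ D ⊓ LinearMap.ker l) ∧ S.q t v = S.z := by
    intro t v
    constructor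
    · rintro ⟨⟨b1, b2⟩, b3⟩
      exact ⟨⟨b1, b3⟩, b2⟩
    · rintro ⟨⟨b1, b3⟩, b2⟩
      exact ⟨⟨b1, b2⟩, b3⟩
  have hcnt : ∀ C : V → Prop, ∑ t : V, ind (C t) * (Nat.card (Y t) * Nat.card (Y t)) =
      ∑ v : V, ∑ w : V, ∑ t : V, ind (C t ∧ (v ∈ Y t ∧ w ∈ Y t)) := by
    intro C
    have e : ∀ t : V, ind (C t) * (Nat.card (Y t) * Nat.card (Y t)) =
        ∑ v : V, ∑ w : V, ind (C t ∧ (v ∈ Y t ∧ w ∈ Y t)) := by
      intro t
      rw [natCard_eq, ind_mul_sum, Finset.mul_sum]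
      refine Finset.sum_congr rfl fun v _ => ?_
      rw [Finset.mul_sum]
      exact Finset.sum_congr rfl fun w _ => (ind_and _ _).symm
    rw [Finset.sum_congr rfl fun t _ => e t, Finset.sum_comm]
    refine Finset.sum_congr rfl fun v _ => ?_
    rw [Finset.sum_comm]
  have eT : ∑ t : V, ind (TT S a D l t) * (Nat.card (Y t) * Nat.card (Y t)) =
      ∑ t : V, ind (TT S a D l t) * g2 S D t := by
    refine Finset.sum_congr rfl fun t _ => ?_
    by_cases h : TT S a D l t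
    · show ind _ * (Nat.card (X S D t ⊓ LinearMap.ker l : Submodule (ZMod 2) V) *
        Nat.card (X S D t ⊓ LinearMap.ker l : Submodule (ZMod 2) V)) = _
      rw [card_van h.2]
      rfl
    · rw [ind_neg h, zero_mul, zero_mul]
  have eA : ∑ t : V, ind (AA S a D l t) * g2 S D t =
      4 * ∑ t : V, ind (AA S a D l t) * (Nat.card (Y t) * Nat.card (Y t)) := by
    rw [Finset.mul_sum]
    refine Finset.sum_congr rfl fun t _ => ?_
    by_cases h : AA S a D l t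
    · unfold g2
      rw [card_nvan h.2]
      show ind _ * (2 * Nat.card (X S D t ⊓ LinearMap.ker l : Submodule (ZMod 2) V) *
        (2 * Nat.card (X S D t ⊓ LinearMap.ker l : Submodule (ZMod 2) V))) =
        4 * (ind _ * (Nat.card (X S D t ⊓ LinearMap.ker l : Submodule (ZMod 2) V) *
        Nat.card (X S D t ⊓ LinearMap.ker l : Submodule (ZMod 2) V)))
      ring
    · rw [ind_neg h, zero_mul, zero_mul, mul_zero]
  have e0 : ∑ t : V, ind (TT S a D l t) * (Nat.card (Y t) * Nat.card (Y t)) =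
      ∑ t : V, ind (AA S a D l t) * (Nat.card (Y t) * Nat.card (Y t)) := by
    have h1 := H.three hv0 hlv
    rw [eA] at h1
    rw [eT]
    omega
  rw [hcnt (TT S a D l), hcnt (AA S a D l)] at e0
  -- termwise comparison
  have tle : ∀ v w : V, ∑ t : V, ind (TT S a D l t ∧ (v ∈ Y t ∧ w ∈ Y t)) ≤
      ∑ t : V, ind (AA S a D l t ∧ (v ∈ Y t ∧ w ∈ Y t)) := by
    intro v w
    by_cases hex : ∃ t1, TT S a D l t1 ∧ (v ∈ Y t1 ∧ w ∈ Y t1)
    · obtain ⟨t1, h1, h2, h3⟩ := hex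
      rw [← Equiv.sum_comp (Equiv.addRight t1)]
      refine Finset.sum_le_sum fun p _ => ind_le ?_
      show TT S a D l (p + t1) ∧ (v ∈ Y (p + t1) ∧ w ∈ Y (p + t1)) →
        AA S a D l p ∧ (v ∈ Y p ∧ w ∈ Y p)
      rintro ⟨b1, b2, b3⟩
      have b4 := H.TA hv0 hlv h1 b1
      rw [xyy] at b4
      refine ⟨b4, mY.2 ⟨(mY.1 b2).1, ?_⟩, mY.2 ⟨(mY.1 b3).1, ?_⟩⟩
      · have := lc (mY.1 b2).2 (mY.1 h2).2
        rwa [xyy] at this
      · have := lc (mY.1 b3).2 (mY.1 h3).2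
        rwa [xyy] at this
    · push Not at hex
      have : ∑ t : V, ind (TT S a D l t ∧ (v ∈ Y t ∧ w ∈ Y t)) = 0 :=
        Finset.sum_eq_zero fun t _ => ind_neg fun h => hex t h.1 h.2.1 h.2.2
      rw [this]
      exact Nat.zero_le _
  have tle' : ∀ v : V, ∑ w : V, ∑ t : V, ind (TT S a D l t ∧ (v ∈ Y t ∧ w ∈ Y t)) ≤
      ∑ w : V, ∑ t : V, ind (AA S a D l t ∧ (v ∈ Y t ∧ w ∈ Y t)) :=
    fun v => Finset.sum_le_sum fun w _ => tle v w
  rw [Finset.sum_eq_sum_iff_of_le fun v _ => tle' v] at e0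
  have e1 := e0 v (Finset.mem_univ _)
  rw [Finset.sum_eq_sum_iff_of_le fun w _ => tle v w] at e1
  have e2 := e1 w (Finset.mem_univ _)
  by_contra hcon
  push Not at hcon
  have h1 : ∑ t : V, ind (TT S a D l t ∧ (v ∈ Y t ∧ w ∈ Y t)) = 0 :=
    Finset.sum_eq_zero fun t _ => ind_neg fun h => hcon t h.1 (mY.1 h.2.1).2 (mY.1 h.2.2).2
  rw [h1] at e2
  have h2 := (Finset.sum_eq_zero_iff.1 e2.symm) 0 (Finset.mem_univ _)
  rw [ind_pos ⟨H.AA0 hv0 hlv, mY.2 ⟨hv, zq v⟩, mY.2 ⟨hw, zq w⟩⟩] at h2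
  exact one_ne_zero h2

/-- **Theorem Z+** -/
theorem Hz.main (H : Hz S a D l) {v0 : V} (hv0 : v0 ∈ D) (hlv : l v0 ≠ 0) :
    ∃ t, Sl S a t ∧ ∀ v, S.q t v = S.z ↔ v ∈ D ∧ l v = 0 := by
  obtain ⟨t0, ht0⟩ := H.three' hv0 hlv
  have E : EH S (D ⊓ LinearMap.ker l) (H.A hv0 hlv) t0 := by
    refine ⟨fun h => h.1 ht0.1, ?_, ?_⟩
    · intro t ht
      rw [H.mem_T hv0 hlv ht0] at ht
      intro v hv
      have h1 : v ∈ D := H.aD ht.1 hv
      exact ⟨h1, ht.2 v ⟨h1, hv⟩⟩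
    · intro v hv w hw
      obtain ⟨t, h1, h2, h3⟩ := H.five hv0 hlv hv hw
      exact ⟨t, (H.mem_T hv0 hlv ht0).2 h1, h2, h3⟩
  obtain ⟨t, h1, h2⟩ := E.fin
  rw [H.mem_T hv0 hlv ht0] at h1
  refine ⟨t, h1.1, fun v => ⟨fun h => ?_, fun h => h2 v ⟨h.1, h.2⟩⟩⟩
  have h3 : v ∈ D := H.aD h1.1 h
  exact ⟨h3, h1.2 v ⟨h3, h⟩⟩

/-- **Theorem Z+**: if every element of `D_a` at which `l` does not vanish is a slot of `a`, then
some slot `t` of `a` has `V_t = {v ∈ D_a : l v = 0}` and `q (t, v) = a` for the other elements `v`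
of `D_a` -/
theorem rigid_of_nonspan (S : QData V Q) (he : S.e = 0) {a : Q} (ha : a ≠ S.z)
    (l : V →ₗ[ZMod 2] ZMod 2)
    (hl : ∀ v, (∃ s, Sl S a s ∧ S.q s v = S.z) → l v ≠ 0 → Sl S a v)
    (hv : ∃ v, (∃ s, Sl S a s ∧ S.q s v = S.z) ∧ l v ≠ 0) :
    ∃ t, Sl S a t ∧ (∀ v, S.q t v = S.z ↔ (∃ s, Sl S a s ∧ S.q s v = S.z) ∧ l v = 0) ∧
      ∀ v, S.q t v = a ↔ (∃ s, Sl S a s ∧ S.q s v = S.z) ∧ l v ≠ 0 := by
  obtain ⟨v0, hv0, hlv⟩ := hv
  obtain ⟨s, hs, hsv⟩ := hv0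
  have H : Hz S a (DD S a ⟨s, hs⟩) l := ⟨he, ha, fun t => Iff.rfl, hl⟩
  have hv0' : v0 ∈ DD S a ⟨s, hs⟩ := ⟨s, hs, hsv⟩
  obtain ⟨t, h1, h2⟩ := H.main hv0' hlv
  refine ⟨t, h1, h2, ?_⟩
  obtain ⟨n, hn, hln⟩ := H.one hv0' hlv h1
  intro v
  constructor
  · intro h
    have h3 : v ∈ DD S a ⟨s, hs⟩ := H.sD (Sl.co h)
    refine ⟨h3, fun h4 => ha ?_⟩
    rw [← h]
    exact (h2 v).2 ⟨h3, h4⟩
  · rintro ⟨h3, h4⟩
    have h5 : S.q t (v + n) = S.z := by
      refine (h2 _).2 ⟨(DD S a ⟨s, hs⟩).add_mem h3 (H.sD (Sl.co hn)), ?_⟩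
      rw [map_add, zm_ne_zero h4, zm_ne_zero hln, ss]
    have h6 : S.q t (n + (v + n)) = a := r0 hn h5
    rwa [show n + (v + n) = v + n + n by abel, xyy] at h6

end Pool.Agent.ZP13
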